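import Pool.Agent.Helper43.Gx.Goals
import Pool.Agent.Helper53.Gm.B

/-! # Packet X5: prices of a run with a linear end -/

set_option autoImplicit false

namespace Pool.Agent.Helper43.Gx.PkX5

open Finset Pool.Agent.Lead.Sh
open Pool.Agent.Helper43.Gm (st mv nn SS Run Pri)
open Pool.Agent.Helper43.Gm.PkB

/-- The proof of `Gm.PkB.goalB`, with the prices named. -/
theorem pri_run {M R E : ℕ} {ν κ x : ℕ → ℕ} {u : ℕ → ℤ} (h : Run M R ν κ x) (hu : Un M R E u)
    (hE : E = ∑ y ∈ range R, κ y + 1) :
    ∀ N, Pri R ν (nn κ x ν) (pr M ν κ x u) (fun c => 2 * (4 * M + 4) * u c) N := by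
  intro N c _ y hy hn
  have hcy : c ≤ κ y := by
    by_contra hlt
    rw [nn, if_pos (by omega)] at hn
    omega
  have hcE : c < E := by
    have : κ y ≤ ∑ y ∈ range R, κ y := single_le_sum (fun _ _ => Nat.zero_le _) (mem_range.2 hy)
    omega
  have h6 := hu.pos c
  have hM : (0 : ℤ) ≤ M := Int.natCast_nonneg M
  have hε : 0 < 2 * (4 * (M : ℤ) + 4) * u c := by positivity
  have hνM := h.νM c
  -- the first old row
  set S := st κ c R with hS
  have hSR : ∀ w < R, κ w ≤ c ↔ w < S := by
    intro w hw
    constructor
    · intro h1
      have h2 : range (w + 1) ⊆ (range R).filter (fun y => κ y ≤ c) := by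
        intro y' hy'
        rw [mem_range] at hy'
        rw [mem_filter, mem_range]
        exact ⟨by omega, (mono' h (by omega) hw).trans h1⟩
      have h3 := card_le_card h2
      rw [card_range] at h3
      exact h3
    · intro h1
      by_contra h2
      have h3 : (range R).filter (fun y => κ y ≤ c) ⊆ range w := by
        intro y' hy'
        rw [mem_filter, mem_range] at hy'
        rw [mem_range]
        by_contra h4
        have := mono' h (by omega : w ≤ y') hy'.1
        omega
      have h4 := card_le_card h3
      rw [card_range] at h4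
      have h5 : S = ((range R).filter (fun y => κ y ≤ c)).card := rfl
      omega
  rcases Nat.lt_or_ge c (κ y) with hlt | hge
  · -- `c` is old at `y`
    have hSy : S ≤ y := by
      by_contra h1
      have := (hSR y hy).2 (by omega)
      omega
    have hst : st κ c y = S := by
      have h1 : (range y).filter (fun y => κ y ≤ c) = (range R).filter (fun y => κ y ≤ c) := by
        ext w
        rw [mem_filter, mem_filter, mem_range, mem_range]
        constructor
        · rintro ⟨h1, h2⟩
          exact ⟨by omega, h2⟩
        · rintro ⟨h1, h2⟩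
          have := (hSR w h1).1 h2
          exact ⟨by omega, h2⟩
      exact congrArg card h1
    have hnn : nn κ x ν c y = ν c - (y - S) - (mv κ x ν c y).card := by
      rw [nn, if_neg (by omega), if_neg (by omega), hst]
    refine ⟨Ico S y ∪ mv κ x ν c y, ?_, ?_, ?_⟩
    · simp [mv]
    · have h1 := card_union_le (Ico S y) (mv κ x ν c y)
      rw [Nat.card_Ico] at h1
      omega
    · intro y' hy' hU hne
      rw [mem_union, not_or, mem_Ico] at hU
      obtain ⟨hU1, hU2⟩ := hU
      rcases Nat.lt_or_ge c (κ y') with h1 | h1
      · -- old
        have hSy' : S ≤ y' := by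
          by_contra h2
          have := (hSR y' hy').2 (by omega)
          omega
        have h2 : y < y' := by omega
        have h3 := old_lt h hu h2.le hy' hlt hcE
        have h4 : (1 : ℤ) ≤ (y' : ℤ) - y := by omega
        have h5 := mul_le_mul_of_nonneg_left h4 hε.le
        nlinarith [mul_nonneg hM h6.le]
      · have hy'y : y' < y := by
          have := (hSR y' hy').1 h1
          omega
        by_cases he : κ y' < c ∨ (κ y' = c ∧ x y' = 0)
        · have h2 := early h hu hy'y hy he hcE hSR
          have h3 : ((y + 1 - S : ℕ) : ℤ) ≤ M := by omega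
          have h4 := mul_le_mul_of_nonneg_left h3 hε.le
          have h5 : 0 < (3 * (M : ℤ) + 3) * (2 * (4 * M + 4) * u c) := by positivity
          nlinarith
        · have h8 : κ y' = c ∧ 0 < x y' := by omega
          have h9 : x y' + y ≤ ν c + y' := by
            by_contra h9
            apply hU2
            rw [mv, mem_filter, mem_range]
            exact ⟨hy'y, h8.1, h8.2, by omega⟩
          have h10 := (key h hu hy'y.le hy h8.1 h8.2 hlt hcE).1
          have h11 : (0 : ℤ) ≤ (ν c : ℤ) - x y' - (y - y') := by omega
          have h12 := mul_nonneg hε.le h11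
          nlinarith
  · -- `c` is moving at `y`
    have hκy : κ y = c := by omega
    have hnn : nn κ x ν c y = x y := by
      rw [nn, if_neg (by omega), if_pos hκy]
    rw [hnn] at hn ⊢
    have hxν : x y ≤ ν c := by
      have := h.le y hy
      rwa [hκy] at this
    refine ⟨Ico (y + 1) (y + 1 + (ν c - x y)), ?_, ?_, ?_⟩
    · simp
    · rw [Nat.card_Ico]
      omega
    · intro y' hy' hU hne
      rw [mem_Ico] at hU
      rcases Nat.lt_or_ge y' y with h1 | h1
      · by_cases he : κ y' < c ∨ (κ y' = c ∧ x y' = 0)
        · have h2 := early h hu h1 hy he hcE hSR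
          have h3 : y + 1 - S = 0 := by
            have := (hSR y hy).1 (by omega)
            omega
          rw [h3] at h2
          have h5 : 0 < (4 * (M : ℤ) + 3) * (2 * (4 * M + 4) * u c) := by positivity
          push_cast at h2
          linarith
        · have h7 := mono' h h1.le hy
          have h8 : κ y' = c ∧ 0 < x y' := by omega
          have h9 := mov_diff (u := u) h h1.le hy h8.1 h8.2 hκy
          have h10 := moving h h1.le hy h8.2 (by omega)
          have h11 : (0 : ℤ) ≤ (x y : ℤ) - x y' - (y - y') := by omega
          have h12 := mul_nonneg hε.le h11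
          have h13 : (1 : ℤ) ≤ ((y - y' : ℕ) : ℤ) := by omega
          have h14 := mul_le_mul_of_nonneg_left h13 (by positivity : 0 ≤ 2 * u c)
          nlinarith
      · have h2 : y + 1 + (ν c - x y) ≤ y' := by omega
        have h3 : c < κ y' := by
          by_contra h4
          have h5 := mono' h h1 hy'
          have h7 := moving h h1 hy' hn (by omega)
          have h8 := h.le y' hy'
          have h9 : κ y' = c := by omega
          rw [h9] at h8
          omega
        have h10 := (key h hu h1 hy' hκy hn h3 hcE).2
        have h11 : (ν c : ℤ) - x y - (y' - y) ≤ -1 := by omega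
        have h12 := mul_le_mul_of_nonneg_left h11 hε.le
        nlinarith


theorem goalX5 : GoalX5 := by
  intro M R J K ν κ x h hJ hend hbef
  obtain ⟨u, hu⟩ := exists_un M R (∑ y ∈ range R, κ y + 1)
  have hK : κ J = K := (hend J le_rfl hJ).1
  have hKE : K < ∑ y ∈ range R, κ y + 1 := by
    have : κ J ≤ ∑ y ∈ range R, κ y := single_le_sum (fun _ _ => Nat.zero_le _) (mem_range.2 hJ)
    omega
  have hM : (0 : ℤ) ≤ M := Int.natCast_nonneg M
  have hpK := hu.pos K
  refine ⟨pr M ν κ x u, fun c => 2 * (4 * M + 4) * u c, (4 * M + 4) * (2 * (4 * M + 4) * u K),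
    pri_run h hu rfl, ?_, ?_⟩
  · intro y hy
    induction y, hy using Nat.le_induction with
    | base => intro _; simp
    | succ y hy ih =>
      intro hyR
      obtain ⟨h1, h2⟩ := hend y hy (by omega)
      rw [pr_succ, ih (by omega), Ds, if_pos h2, h1]
      push_cast
      ring
  · intro y hy
    have hst : ∀ w < J, (4 * M + 4) * (2 * (4 * M + 4) * u K) ≤ Ds M ν κ x u w := by
      intro w hw
      obtain ⟨h1, h2⟩ := hbef w hw
      rcases Nat.lt_or_ge (κ w) K with h3 | h3
      · have h4 := (Ds_bd h hu (by omega : w + 1 < R)).1
        have h5 := hu.big (κ w) K h3 (h3.trans hKE)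
        have h6 : GG M * u K ≤ ((R : ℤ) + 1) * GG M * u K := by
          have : 0 ≤ (R : ℤ) * (GG M * u K) := by unfold GG; positivity
          nlinarith
        have h7 : (4 * M + 4) * (2 * (4 * M + 4) * u K) ≤ GG M * u K := by
          unfold GG
          nlinarith
        linarith
      · have h4 : κ w = K := by omega
        rw [Ds, if_pos (h2 h4), h4]
    have key : ∀ d, y + d ≤ J →
        pr M ν κ x u y + (4 * M + 4) * (2 * (4 * M + 4) * u K) * d ≤ pr M ν κ x u (y + d) := by
      intro d
      induction d with
      | zero => intro _; simp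
      | succ d ih =>
        intro hd
        have h1 := ih (by omega)
        have h2 := hst (y + d) (by omega)
        rw [← add_assoc, pr_succ]
        push_cast
        linarith
    have h1 := key (J - y) (by omega)
    have h2 : y + (J - y) = J := by omega
    have h3 : ((J - y : ℕ) : ℤ) = (J : ℤ) - y := by omega
    rw [h2, h3] at h1
    exact h1

end Pool.Agent.Helper43.Gx.PkX5
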