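import Mathlib
import Pool.Agent.Helper43.Gx.Goals2
import Pool.Agent.Helper18.Np.Cases

/-! # Packet Y6: one dominating point -/

set_option autoImplicit false

namespace Pool.Agent.Helper43.Gx.PkY6

open Finset Pool.Agent.Lead.Sh
open Helper18.Cusp (Concl GoodFor)
open Helper18.Np

theorem goalY6 (hY5 : GoalY5) : GoalY6 := by
  intro s m d hm hs hd h9 hδ hN
  obtain ⟨p1, p2, p3, p4, p5⟩ := pow_facts h9
  have h19 : m 9 ≤ m 1 := hm (by norm_num)
  have h29 : m 9 ≤ m 2 := hm (by norm_num)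
  obtain ⟨δ, hδe⟩ : ∃ δ, d = m 0 + δ := ⟨d - m 0, by omega⟩
  have hf : fm m (Finset.Ico 1 9) 0 ≤ 4 * δ := by
    have := fm_long hm hd 0
    rw [show d - m 0 = δ by omega] at this
    exact this
  apply long_finish hm hs hd (by omega)
  rw [show d - m 0 = δ by omega]
  refine hY5 (m 9) δ d (Finset.Ico 1 9) (Finset.Ico 9 s) m (by omega) (by omega) (Ico_disj 1 s)
    ?_ hf ?_ ?_
  · intro k hk
    rw [Finset.mem_Ico] at hk
    have : m k ≤ m 1 := hm hk.1
    omega
  · intro k hk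
    rw [Finset.mem_Ico] at hk
    exact hm hk.1
  · set M := m 9
    have h1 : δ + 1 ≤ 57 * M ^ 2 := by omega
    have h2 : 11 * M * (δ + 1) ≤ 11 * M * (57 * M ^ 2) := Nat.mul_le_mul_left _ h1
    have h3 : 11 * M * (57 * M ^ 2) = 627 * M ^ 3 := by ring
    omega

end Pool.Agent.Helper43.Gx.PkY6
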