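import Mathlib
import Pool.Agent.Helper43.Gx.Goals2
import Pool.Agent.Helper43.Gx.Goals
import Pool.Agent.Helper18.Np.Cases
import Pool.Agent.Helper18.Np.Final

/-! # Packet Y7: the final case distinction -/

set_option autoImplicit false

namespace Pool.Agent.Helper43.Gx.PkY7

open Finset Pool.Agent.Lead.Sh
open Helper18.Cusp Helper18.Slab Helper18.Tw
open Helper18.Np

theorem goalY7 (h10 : GoalX10) (h11 : GoalX11) (hY6 : GoalY6) : GoalY7 := by
  intro s m d hm hs hd hd2 h2 h3
  rcases Nat.lt_or_ge (∑ i ∈ Finset.range 9, m i) (3 * d) with hlt | hge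
  · rcases Nat.lt_or_ge (m 9) 2 with h9 | h9
    · obtain ⟨hsum, hR⟩ := red_tr hm hd (j := 9) (by norm_num) le_rfl hlt
      exact cubic_finish s m d 9 hm hs le_rfl hR (goodFor_simple hm hs (by omega) _)
    · rcases Nat.lt_or_ge (3 * d) (∑ i ∈ Finset.range 9, m i + 260 * m 9 ^ 2) with c1 | c1
      · have hexp : ∑ i ∈ Finset.range 9, m i =
            m 0 + m 1 + m 2 + m 3 + m 4 + m 5 + m 6 + m 7 + m 8 := by
          simp only [Finset.sum_range_succ, Finset.sum_range_zero, zero_add]
        have a1 : m 1 ≤ m 0 := hm (by norm_num)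
        have a2 : m 2 ≤ m 1 := hm (by norm_num)
        have a3 : m 3 ≤ m 2 := hm (by norm_num)
        have a4 : m 4 ≤ m 3 := hm (by norm_num)
        have a5 : m 5 ≤ m 4 := hm (by norm_num)
        have a6 : m 6 ≤ m 5 := hm (by norm_num)
        have a7 : m 7 ≤ m 6 := hm (by norm_num)
        have a8 : m 8 ≤ m 7 := hm (by norm_num)
        have h6 : d ≤ 6 * m 8 := by omega
        refine h11 s m d hm hs hd h9 hlt (by omega) ?_
        obtain ⟨κ, hκ⟩ : ∃ κ, 3 * d = ∑ i ∈ Finset.range 9, m i + κ :=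
          ⟨3 * d - ∑ i ∈ Finset.range 9, m i, by omega⟩
        have h4 : 984 * m 9 ^ 4 ≤ κ * d := by
          rcases h3 with h3 | h3
          · omega
          · rw [hκ, Nat.add_mul] at h3
            omega
        have h5 : κ * d ≤ κ * (6 * m 8) := Nat.mul_le_mul_left _ h6
        have e1 : 3 * d - ∑ i ∈ Finset.range 9, m i = κ := by omega
        have e2 : κ * (6 * m 8) = 6 * (κ * m 8) := by ring
        rw [e1]
        omega
      · rcases Nat.lt_or_ge d (m 0 + 57 * m 9 ^ 2) with c2 | c2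
        · exact hY6 s m d hm hs hd h9 c2 (by omega)
        · exact h10 s m d hm hs hd h9 c1 c2
  · obtain ⟨z, F, -, hU⟩ := Pool.Agent.Helper43.Nod.hex (m 8 + 1) (by omega)
    exact main_zero hm hs hd (Nat.lt_succ_self _) hU hge

end Pool.Agent.Helper43.Gx.PkY7
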